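import Pool.Agent.H586.AF.C

/-!
# Task AF-TL (helper190): the tail bound
-/

set_option autoImplicit false
set_option linter.unusedVariables false

open MeasureTheory Matrix Finset Filter Topology
open scoped Quaternion

namespace Pool.Agent.H190.AF

open Pool.Agent.H586.AF

/-- the numerical inequality behind the tail bound -/
theorem num_ineq (A : ℝ) (hA : 0 ≤ A) (k : ℕ) (hk : 25200 + 36 * A ≤ (2 : ℝ) ^ k) (l β : ℝ) (hl : 2 ≤ l)
    (hβ : l ^ (20 * (18 + k)) ≤ β) :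
    9 * Real.log β + 1800 * l ^ 12 + 3 * l ^ 4 * (A + 2 * Real.log β) ≤
      β ^ (1 / 10 : ℝ) / (12 * l ^ 6) := by
  have hl1 : (1 : ℝ) ≤ l := by linarith
  have hl0 : (0 : ℝ) < l := by linarith
  have hβ1 : 1 ≤ β := (one_le_pow₀ hl1).trans hβ
  have hβ0 : 0 < β := by linarith
  set x : ℝ := β ^ (1 / 20 : ℝ) with hx
  have hx1 : 1 ≤ x := Real.one_le_rpow hβ1 (by norm_num)
  have hx2 : β ^ (1 / 10 : ℝ) = x ^ 2 := by
    rw [hx, ← Real.rpow_natCast, ← Real.rpow_mul hβ0.le]; norm_num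
  have hlog : Real.log β ≤ 20 * x := by
    have := Real.log_le_rpow_div hβ0.le (show (0 : ℝ) < 1 / 20 by norm_num)
    rw [hx]; linarith
  have hlog0 : 0 ≤ Real.log β := Real.log_nonneg hβ1
  have hxl : l ^ (18 + k) ≤ x := by
    have h1 : (l ^ (20 * (18 + k))) ^ (1 / 20 : ℝ) ≤ x :=
      Real.rpow_le_rpow (by positivity) hβ (by norm_num)
    have h2 : (l ^ (20 * (18 + k))) ^ (1 / 20 : ℝ) = l ^ (18 + k) := by
      rw [← Real.rpow_natCast, ← Real.rpow_mul hl0.le, ← Real.rpow_natCast]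
      congr 1
      push_cast
      ring
    rw [h2] at h1; exact h1
  have hk2 : (2 : ℝ) ^ k ≤ l ^ k := pow_le_pow_left₀ (by norm_num) hl k
  have hmain : (25200 + 36 * A) * l ^ 18 ≤ x := by
    calc (25200 + 36 * A) * l ^ 18 ≤ l ^ k * l ^ 18 :=
          mul_le_mul_of_nonneg_right (hk.trans hk2) (by positivity)
      _ = l ^ (18 + k) := by rw [← pow_add, add_comm]
      _ ≤ x := hxl
  rw [le_div_iff₀ (by positivity), hx2]
  have hl12 : (1 : ℝ) ≤ l ^ 12 := one_le_pow₀ hl1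
  have hl4 : l ^ 4 ≤ l ^ 12 := pow_le_pow_right₀ hl1 (by norm_num)
  have hl40 : (0 : ℝ) ≤ l ^ 4 := by positivity
  have hs : 9 * Real.log β + 1800 * l ^ 12 + 3 * l ^ 4 * (A + 2 * Real.log β) ≤
      (2100 + 3 * A) * l ^ 12 * x := by
    have e1 : 9 * Real.log β ≤ 180 * (l ^ 12 * x) := by
      have : x ≤ l ^ 12 * x := le_mul_of_one_le_left (by linarith) hl12
      linarith
    have e2 : l ^ 12 ≤ l ^ 12 * x := le_mul_of_one_le_right (by positivity) hx1
    have e3 : 3 * l ^ 4 * (A + 2 * Real.log β) ≤ 3 * l ^ 12 * ((A + 40) * x) := by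
      have : A + 2 * Real.log β ≤ (A + 40) * x := by nlinarith
      calc 3 * l ^ 4 * (A + 2 * Real.log β) ≤ 3 * l ^ 4 * ((A + 40) * x) :=
            mul_le_mul_of_nonneg_left this (by positivity)
        _ ≤ 3 * l ^ 12 * ((A + 40) * x) := by
            apply mul_le_mul_of_nonneg_right
            · linarith
            · exact mul_nonneg (by linarith) (by linarith)
    calc 9 * Real.log β + 1800 * l ^ 12 + 3 * l ^ 4 * (A + 2 * Real.log β)
        ≤ 180 * (l ^ 12 * x) + 1800 * (l ^ 12 * x) + 3 * l ^ 12 * ((A + 40) * x) := by linarith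
      _ = (2100 + 3 * A) * l ^ 12 * x := by ring
  calc (9 * Real.log β + 1800 * l ^ 12 + 3 * l ^ 4 * (A + 2 * Real.log β)) * (12 * l ^ 6)
      ≤ ((2100 + 3 * A) * l ^ 12 * x) * (12 * l ^ 6) :=
        mul_le_mul_of_nonneg_right hs (by positivity)
    _ = ((25200 + 36 * A) * l ^ 18) * x := by ring
    _ ≤ x * x := mul_le_mul_of_nonneg_right hmain (by linarith)
    _ = x ^ 2 := by ring

/-- the size is a continuous function -/
theorem continuous_sz {L : ℕ} : Continuous (fun σ : IH L → SU => sz σ) := by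
  unfold sz
  fun_prop

/-- the upper bound -/
theorem upper_bound (μ : Measure SU) [IsProbabilityMeasure μ] (L : ℕ) (hL : 2 ≤ L) (β : ℝ) (hβ1 : 1 ≤ β)
    (e : (IH L → SU) → ℝ)
    (hE : ∀ σ : IH L → SU, sz σ ^ 2 ≤ 3 * (L : ℝ) ^ 6 * e σ)
    (hint : Integrable (fun σ : IH L → SU => Real.exp (-(β * e σ))) (Measure.pi fun _ => μ)) :
    ∫ σ in {σ : IH L → SU | β ^ (-(9 / 20) : ℝ) < 2 * sz σ}, Real.exp (-(β * e σ))
      ∂(Measure.pi fun _ => μ) ≤ Real.exp (-(β ^ (1 / 10 : ℝ) / (12 * (L : ℝ) ^ 6))) := by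
  have hL2 : (2 : ℝ) ≤ L := by exact_mod_cast hL
  have hL0 : (0 : ℝ) < L := by linarith
  have hβ0 : 0 < β := by linarith
  have hTm : MeasurableSet {σ : IH L → SU | β ^ (-(9 / 20) : ℝ) < 2 * sz σ} :=
    (isOpen_lt continuous_const (continuous_const.mul continuous_sz)).measurableSet
  have h3 : β * (β ^ (-(9 / 20) : ℝ)) ^ 2 = β ^ (1 / 10 : ℝ) := by
    rw [← Real.rpow_natCast (β ^ (-(9 / 20) : ℝ)), ← Real.rpow_mul hβ0.le]
    nth_rewrite 1 [← Real.rpow_one β]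
    rw [← Real.rpow_add hβ0]
    norm_num
  have hM0 : 0 ≤ β ^ (-(9 / 20) : ℝ) := by positivity
  have hkey : ∀ σ ∈ {σ : IH L → SU | β ^ (-(9 / 20) : ℝ) < 2 * sz σ},
      Real.exp (-(β * e σ)) ≤ Real.exp (-(β ^ (1 / 10 : ℝ) / (12 * (L : ℝ) ^ 6))) := by
    intro σ hσ
    apply Real.exp_le_exp.mpr
    apply neg_le_neg
    have hσ' : β ^ (-(9 / 20) : ℝ) < 2 * sz σ := hσ
    have h1 := hE σ
    have h2 : (β ^ (-(9 / 20) : ℝ)) ^ 2 ≤ (2 * sz σ) ^ 2 := pow_le_pow_left₀ hM0 hσ'.le 2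
    rw [div_le_iff₀ (by positivity), ← h3]
    have h4 : (β ^ (-(9 / 20) : ℝ)) ^ 2 ≤ 12 * (L : ℝ) ^ 6 * e σ := by linarith
    calc β * (β ^ (-(9 / 20) : ℝ)) ^ 2 ≤ β * (12 * (L : ℝ) ^ 6 * e σ) :=
          mul_le_mul_of_nonneg_left h4 hβ0.le
      _ = β * e σ * (12 * (L : ℝ) ^ 6) := by ring
  refine (setIntegral_mono_on hint.integrableOn (integrable_const _).integrableOn hTm hkey).trans ?_
  rw [setIntegral_const, smul_eq_mul]
  exact mul_le_of_le_one_left (Real.exp_pos _).le measureReal_le_one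

/-- the measure of the box -/
theorem box_measure {Λ : Type} [Fintype Λ] (μ : Measure SU) [IsProbabilityMeasure μ] (r m : ℝ) (hm : 0 ≤ m)
    (hball : m ≤ μ.real {g : SU | ‖(g : ℍ[ℝ]) - 1‖ ≤ r}) :
    m ^ (Fintype.card Λ) ≤ (Measure.pi fun _ : Λ => μ).real
      (Set.univ.pi fun _ : Λ => {g : SU | ‖(g : ℍ[ℝ]) - 1‖ ≤ r}) := by
  have h1 : (Measure.pi fun _ : Λ => μ).real (Set.univ.pi fun _ : Λ => {g : SU | ‖(g : ℍ[ℝ]) - 1‖ ≤ r}) =
      (μ.real {g : SU | ‖(g : ℍ[ℝ]) - 1‖ ≤ r}) ^ (Fintype.card Λ) := by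
    rw [Measure.real, Measure.pi_pi, Finset.prod_const, ENNReal.toReal_pow, Finset.card_univ]
    rfl
  rw [h1]
  exact pow_le_pow_left₀ hm hball _

/-- the lower bound -/
theorem lower_bound {Λ : Type} [Fintype Λ] (μ : Measure SU) [IsProbabilityMeasure μ] (b : ℝ)
    (f : (Λ → SU) → ℝ) (r m : ℝ) (hm : 0 ≤ m)
    (hball : m ≤ μ.real {g : SU | ‖(g : ℍ[ℝ]) - 1‖ ≤ r})
    (hf : ∀ σ : Λ → SU, (∀ l, ‖(σ l : ℍ[ℝ]) - 1‖ ≤ r) → f σ ≤ b)
    (hint : Integrable (fun σ : Λ → SU => Real.exp (-f σ)) (Measure.pi fun _ => μ)) :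
    Real.exp (-b) * m ^ (Fintype.card Λ) ≤ ∫ σ : Λ → SU, Real.exp (-f σ) ∂(Measure.pi fun _ => μ) := by
  have hBm : MeasurableSet (Set.univ.pi fun _ : Λ => {g : SU | ‖(g : ℍ[ℝ]) - 1‖ ≤ r}) := by
    refine MeasurableSet.univ_pi fun _ => ?_
    exact (isClosed_le (by fun_prop) continuous_const).measurableSet
  have hPB := box_measure (Λ := Λ) μ r m hm hball
  have hkey : ∀ σ ∈ (Set.univ.pi fun _ : Λ => {g : SU | ‖(g : ℍ[ℝ]) - 1‖ ≤ r}),
      Real.exp (-b) ≤ Real.exp (-f σ) := by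
    intro σ hσ
    apply Real.exp_le_exp.mpr
    apply neg_le_neg
    exact hf σ fun l => hσ l (Set.mem_univ l)
  refine (mul_le_mul_of_nonneg_left hPB (Real.exp_pos (-b)).le).trans ?_
  have h2 := setIntegral_mono_on (μ := Measure.pi fun _ : Λ => μ) (integrable_const (Real.exp (-b))).integrableOn
    hint.integrableOn hBm hkey
  rw [setIntegral_const, smul_eq_mul, mul_comm] at h2
  exact h2.trans (setIntegral_le_integral hint (ae_of_all _ fun σ => (Real.exp_pos _).le))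

/-- continuity in the second variable -/
theorem cont_snd {X : Type} [TopologicalSpace X] (f : ℝ → X → ℝ) (h : Continuous (Function.uncurry f))
    (t : ℝ) : Continuous (f t) :=
  h.comp (continuous_const.prodMk continuous_id)

/-- integrability of the Boltzmann factor -/
theorem integrable_gibbs {X : Type} [TopologicalSpace X] [MeasurableSpace X] [BorelSpace X] (P : Measure X)
    [IsProbabilityMeasure P] (f : X → ℝ) (hf : Continuous f) (h0 : ∀ x, 0 ≤ f x) (β : ℝ) (hβ : 0 ≤ β) :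
    Integrable (fun x => Real.exp (-(β * f x))) P := by
  have hcf : Continuous (fun x => Real.exp (-(β * f x))) :=
    Real.continuous_exp.comp (continuous_const.mul hf).neg
  refine Integrable.of_bound hcf.measurable.aestronglyMeasurable 1 (ae_of_all _ fun x => ?_)
  rw [Real.norm_eq_abs, abs_of_pos (Real.exp_pos _)]
  apply Real.exp_le_one_iff.mpr
  have := mul_nonneg hβ (h0 x)
  linarith

/-- **Task AF-TL** -/
theorem ttl (hHB : S_HB) (hEB : S_EB) : S_TL := by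
  obtain ⟨c0, hc0, hHB⟩ := hHB
  -- the constant
  obtain ⟨c, hc, hc1, hcc⟩ : ∃ c : ℝ, 0 < c ∧ c ≤ 1 ∧ c ≤ c0 :=
    ⟨min c0 1, lt_min hc0 one_pos, min_le_right _ _, min_le_left _ _⟩
  obtain ⟨A, hA⟩ : ∃ A : ℝ, A = -Real.log c := ⟨_, rfl⟩
  have hA0 : 0 ≤ A := by
    have := Real.log_nonpos hc.le hc1
    linarith
  obtain ⟨k, hk⟩ := pow_unbounded_of_one_lt (25200 + 36 * A) (show (1 : ℝ) < 2 by norm_num)
  refine ⟨20 * (18 + k), ?_⟩
  intro μ _ _ L hL β hβ
  obtain ⟨hE, hcont, hcard⟩ := hEB L hL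
  have hL2 : (2 : ℝ) ≤ L := by exact_mod_cast hL
  have hL0 : (0 : ℝ) < L := by linarith
  have hβ1 : 1 ≤ β := (one_le_pow₀ (by linarith)).trans hβ
  have hβ0 : 0 < β := by linarith
  have hnum := num_ineq A hA0 k hk.le L β hL2 hβ
  have hint : Integrable (fun σ : IH L → SU => Real.exp (-(β * en L 0 σ)))
      (Measure.pi fun _ => μ) :=
    integrable_gibbs _ (en L 0) (cont_snd (en L) hcont 0) (fun σ => (hE σ).1) β hβ0.le
  -- the upper bound
  have hup := upper_bound μ L hL β hβ1 (en L 0) (fun σ => (hE σ).2.1) hint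
  -- the lower bound
  obtain ⟨r, hr⟩ : ∃ r : ℝ, r = β ^ (-(1 / 2) : ℝ) := ⟨_, rfl⟩
  have hr0 : 0 < r := by rw [hr]; exact Real.rpow_pos_of_pos hβ0 _
  have hr1 : r ≤ 1 := by rw [hr]; exact Real.rpow_le_one_of_one_le_of_nonpos hβ1 (by norm_num)
  have hr2 : β * r ^ 2 = 1 := by
    rw [hr, ← Real.rpow_natCast (β ^ (-(1 / 2) : ℝ)), ← Real.rpow_mul hβ0.le]
    nth_rewrite 1 [← Real.rpow_one β]
    rw [← Real.rpow_add hβ0]
    norm_num
  have hball : c * r ^ 4 ≤ μ.real {g : SU | ‖(g : ℍ[ℝ]) - 1‖ ≤ r} :=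
    (mul_le_mul_of_nonneg_right hcc (by positivity)).trans (hHB μ r hr0 hr1)
  have hpos : 0 < c * r ^ 4 := by positivity
  have hlow := lower_bound (Λ := IH L) μ (1800 * (L : ℝ) ^ 12) (fun σ => β * en L 0 σ) r (c * r ^ 4) hpos.le
    hball (by
      intro σ hσl
      have hsz : sz σ ≤ (Fintype.card (IH L) : ℝ) * r := by
        unfold sz
        calc ∑ l, ‖(σ l : ℍ[ℝ]) - 1‖ ≤ ∑ _l : IH L, r := Finset.sum_le_sum fun l _ => hσl l
          _ = (Fintype.card (IH L) : ℝ) * r := by rw [Finset.sum_const, Finset.card_univ, nsmul_eq_mul]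
      have hsz0 : 0 ≤ sz σ := Finset.sum_nonneg fun l _ => norm_nonneg _
      have h1 := (hE σ).2.2.1
      have hNr : sz σ ≤ 3 * (L : ℝ) ^ 4 * r :=
        hsz.trans (mul_le_mul_of_nonneg_right hcard hr0.le)
      have h2 : sz σ ^ 2 ≤ (3 * (L : ℝ) ^ 4 * r) ^ 2 := pow_le_pow_left₀ hsz0 hNr 2
      calc β * en L 0 σ ≤ β * (200 * (L : ℝ) ^ 4 * sz σ ^ 2) :=
            mul_le_mul_of_nonneg_left h1 hβ0.le
        _ ≤ β * (200 * (L : ℝ) ^ 4 * (3 * (L : ℝ) ^ 4 * r) ^ 2) := by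
            apply mul_le_mul_of_nonneg_left _ hβ0.le
            apply mul_le_mul_of_nonneg_left h2 (by positivity)
        _ = 1800 * (L : ℝ) ^ 12 * (β * r ^ 2) := by ring
        _ = 1800 * (L : ℝ) ^ 12 := by rw [hr2, mul_one]) hint
  -- the comparison
  refine hup.trans (le_trans ?_ (mul_le_mul_of_nonneg_left hlow (Real.rpow_pos_of_pos hβ0 _).le))
  clear hup hlow hint hcont hE hball hHB hEB
  generalize hN : Fintype.card (IH L) = N at *
  have hlogr : Real.log (c * r ^ 4) = -(A + 2 * Real.log β) := by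
    rw [Real.log_mul hc.ne' (by positivity), Real.log_pow, hr, Real.log_rpow hβ0, hA]
    push_cast
    ring
  have hexp : β ^ (-9 : ℝ) * (Real.exp (-(1800 * (L : ℝ) ^ 12)) * (c * r ^ 4) ^ N) =
      Real.exp (-(9 * Real.log β + 1800 * (L : ℝ) ^ 12 + N * (A + 2 * Real.log β))) := by
    rw [Real.rpow_def_of_pos hβ0, ← Real.exp_log (pow_pos hpos N), Real.log_pow, hlogr,
      ← Real.exp_add, ← Real.exp_add]
    congr 1
    ring
  rw [hexp]
  apply Real.exp_le_exp.mpr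
  apply neg_le_neg
  refine le_trans ?_ hnum
  have hlog0 : 0 ≤ Real.log β := Real.log_nonneg hβ1
  have : (N : ℝ) * (A + 2 * Real.log β) ≤ 3 * (L : ℝ) ^ 4 * (A + 2 * Real.log β) :=
    mul_le_mul_of_nonneg_right hcard (by linarith)
  linarith

end Pool.Agent.H190.AF
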